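import Pool.Agent.W275.UB.Stm
import Pool.Agent.H294UB.NF

/-!
# Local models for number fields (helper554, subtask UB-LMN of helper275)
-/

set_option autoImplicit false

namespace Pool.Agent.W554.UB

open MvPolynomial Pool.Agent.W275.UB H294UB

section dvr

variable {A : Type} [CommRing A] [IsDomain A] [IsDiscreteValuationRing A]

lemma unit_of_not_dvd {π : A} (hπ : Irreducible π) {p : ℕ} (hp : p.Prime) (hd : π ∣ (p : A))
    {n : ℤ} (hn : ¬ (p : ℤ) ∣ n) : IsUnit (n : A) := by
  have hc : IsCoprime (p : ℤ) n := (Nat.prime_iff_prime_int.1 hp).coprime_iff_not_dvd.2 hn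
  obtain ⟨a, b, hab⟩ := hc
  by_contra hcon
  have h1 : (n : A) ∈ IsLocalRing.maximalIdeal A := (IsLocalRing.mem_maximalIdeal _).2 hcon
  have h2 : (p : A) ∈ IsLocalRing.maximalIdeal A := by
    obtain ⟨c, hc⟩ := hd
    rw [hc]
    exact Ideal.mul_mem_right _ _ ((IsLocalRing.mem_maximalIdeal _).2 hπ.not_isUnit)
  have h3 : (1 : A) ∈ IsLocalRing.maximalIdeal A := by
    have e : (1 : A) = (a : A) * (p : A) + (b : A) * (n : A) := by
      have := congrArg (Int.cast : ℤ → A) hab
      push_cast at this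
      exact this.symm
    rw [e]
    exact Ideal.add_mem _ (Ideal.mul_mem_left _ _ h2) (Ideal.mul_mem_left _ _ h1)
  exact (IsLocalRing.maximalIdeal A).ne_top_iff_one.1 (IsLocalRing.maximalIdeal.isMaximal A).ne_top h3

lemma not_dvd_of {π : A} (hπ : Irreducible π) {p D V : ℕ} (hp : p.Prime) (hd : π ∣ (p : A))
    (hD : ¬ π ^ (D + 1) ∣ (p : A)) {m : ℤ} (hm : ¬ (p : ℤ) ^ (V + 1) ∣ m) :
    ¬ π ^ (D * V + 1) ∣ (m : A) := by
  have hm0 : m ≠ 0 := by
    rintro rfl
    exact hm (dvd_zero _)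
  have hp0 : (p : A) ≠ 0 := by
    intro h
    rw [h] at hD
    exact hD (dvd_zero _)
  have hfin : FiniteMultiplicity (p : ℤ) m := by
    rw [Int.finiteMultiplicity_iff]
    exact ⟨by simpa using hp.ne_one, hm0⟩
  obtain ⟨m', hm', hnd⟩ := hfin.exists_eq_pow_mul_and_not_dvd
  set k := multiplicity (p : ℤ) m with hk
  have hkV : k ≤ V := by
    by_contra hcon
    push Not at hcon
    apply hm
    rw [hm']
    exact Dvd.dvd.mul_right (pow_dvd_pow _ hcon) _
  obtain ⟨e, he⟩ := IsDiscreteValuationRing.associated_pow_irreducible hp0 hπ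
  have heD : e ≤ D := by
    by_contra hcon
    push Not at hcon
    exact hD ((pow_dvd_pow π hcon).trans he.symm.dvd)
  intro h
  have hu := unit_of_not_dvd hπ hp hd hnd
  have h1 : (m : A) = (p : A) ^ k * (m' : A) := by
    have := congrArg (Int.cast : ℤ → A) hm'
    push_cast at this
    exact this
  rw [h1] at h
  have h2 : π ^ (D * V + 1) ∣ (p : A) ^ k := (hu.dvd_mul_right).1 h
  have h3 : π ^ (D * V + 1) ∣ π ^ (e * k) := by
    refine h2.trans ?_
    rw [pow_mul]
    exact (he.pow_pow (n := k)).dvd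
  have h4 : D * V + 1 ≤ e * k := (pow_dvd_pow_iff hπ.ne_zero hπ.not_isUnit).1 h3
  have h5 : e * k ≤ D * V := Nat.mul_le_mul heD hkV
  omega

end dvr

lemma aeval_cast {ι : Type} {A : Type} [CommRing A] (c : MvPolynomial ι ℤ) (v : ι → ℤ) :
    aeval (fun i => (v i : A)) c = ((eval v c : ℤ) : A) := by
  have h := eval₂_comp_left (Int.castRingHom A) (RingHom.id ℤ) v c
  rw [RingHom.comp_id] at h
  exact h.symm

theorem main : S_lmn := by
  intro D p V ι _ c₁ c₂ K _ _ hD hp v h₁ h₂
  obtain ⟨A, _, _, _, _, _, π, hπ, hd, hq, hj⟩ := taskNF K D hD p hp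
  refine ⟨K, inferInstance, RingHom.id K, A, inferInstance, inferInstance, inferInstance,
    inferInstance, inferInstance, π, fun i => (v i : A), hπ, hd, ?_, ?_, ?_, hj⟩
  · intro i
    rw [map_intCast, RingHom.id_apply]
  · rw [aeval_cast]
    exact unit_of_not_dvd hπ hp hd h₁
  · rw [aeval_cast]
    exact not_dvd_of hπ hp hd (hq p hp) h₂

end Pool.Agent.W554.UB
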